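import Mathlib

/-!
# Baum–Connes with commutative coefficients: data and known facts
-/

namespace Pool.Agent.N522.BC

/-- Connected Lie groups and locally compact spaces with an action. -/
structure Theory where
  /-- connected Lie groups -/
  Grp : Type
  /-- the group is linear: it has a faithful finite-dimensional representation -/
  Lin : Grp → Prop
  /-- `SL_n(ℝ)` -/
  SL : ℕ → Grp
  /-- locally compact `G`-spaces -/
  Sp : Grp → Type
  /-- the assembly map `μ` is an isomorphism -/
  BC : ∀ {G : Grp}, Sp G → Prop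
  /-- homomorphisms `H → G` which are homeomorphisms onto a closed subgroup -/
  Emb : Grp → Grp → Type
  /-- the induced space `G ×_H X` -/
  ind : ∀ {H G : Grp}, Emb H G → Sp H → Sp G
  /-- the one-point compactification, with the action fixing `∞` -/
  plus : ∀ {G : Grp}, Sp G → Sp G
  /-- compact with a fixed point -/
  CptFix : ∀ {G : Grp}, Sp G → Prop
  /-- compact metrizable with a fixed point -/
  CptMetrFix : ∀ {G : Grp}, Sp G → Prop
  /-- `Y` is an equivariant quotient space of `X` -/
  Quot : ∀ {G : Grp}, Sp G → Sp G → Prop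

variable {T : Theory}

/-- Q1 for the group `G` -/
def Q1For (G : T.Grp) : Prop := ∀ X : T.Sp G, T.BC X

/-- Q1 for the group `G` and compact metrizable spaces with a fixed point -/
def Q1Cpt (G : T.Grp) : Prop := ∀ X : T.Sp G, T.CptMetrFix X → T.BC X

/-- Known facts. -/
structure Facts (T : Theory) : Prop where
  /-- Green's imprimitivity theorem and its analogue for topological K-theory (Chabert–Echterhoff) -/
  ind_bc : ∀ (H G : T.Grp) (i : T.Emb H G) (X : T.Sp H), T.BC (T.ind i X) ↔ T.BC X
  /-- Goto: connected linear Lie groups embed as closed subgroups in `GL_m(ℝ)`, hence in `SL_n(ℝ)`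
  for large `n` -/
  goto : ∀ G : T.Grp, T.Lin G → ∃ N : ℕ, ∀ n : ℕ, N ≤ n → Nonempty (T.Emb G (T.SL n))
  /-- `SL_n(ℝ)` is linear -/
  lin_SL : ∀ n : ℕ, T.Lin (T.SL n)
  /-- the compactification is compact with a fixed point -/
  plus_cpt : ∀ (G : T.Grp) (X : T.Sp G), T.CptFix (T.plus X)
  /-- six-term exact sequences (connected groups are exact) and the case of a point
  (Chabert–Echterhoff–Nest) -/
  plus_bc : ∀ (G : T.Grp) (X : T.Sp G), T.BC (T.plus X) ↔ T.BC X
  /-- both sides commute with inductive limits, and `C(X)` is the limit of the algebras of its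
  metrizable equivariant quotients -/
  limit : ∀ (G : T.Grp) (X : T.Sp G), T.CptFix X →
    (∀ Y : T.Sp G, T.Quot X Y → T.CptMetrFix Y → T.BC Y) → T.BC X

theorem q1For_iff (F : Facts T) (G : T.Grp) : Q1For G ↔ Q1Cpt G := by
  refine ⟨fun h X _ => h X, fun h X => ?_⟩
  rw [← F.plus_bc]
  exact F.limit G _ (F.plus_cpt G X) fun Y _ hY => h Y hY

theorem q1_of_emb (F : Facts T) (H G : T.Grp) (i : T.Emb H G) (h : Q1For G) : Q1For H :=
  fun X => (F.ind_bc H G i X).mp (h _)

theorem linear_iff (F : Facts T) : (∀ G : T.Grp, T.Lin G → Q1For G) ↔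
    ∀ N : ℕ, ∃ n : ℕ, N ≤ n ∧ Q1Cpt (T.SL n) := by
  constructor
  · intro h N
    exact ⟨N, le_rfl, (q1For_iff F _).mp (h _ (F.lin_SL N))⟩
  · intro h G hG
    obtain ⟨N, hN⟩ := F.goto G hG
    obtain ⟨n, hn, hQ⟩ := h N
    obtain ⟨i⟩ := hN n hn
    exact q1_of_emb F G _ i ((q1For_iff F _).mpr hQ)

end Pool.Agent.N522.BC
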